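import Mathlib
import Pool.Agent.BSI.Stmts

set_option autoImplicit false

/-! Row SI2 of the squad BSI: the size of the values of the generator. -/

namespace Pool.Agent.BSI.H65

open Pool.Agent.BSI Pool.Agent.BSH

theorem si2 : Si2Stmt := by
  intro r q C L ξ hr hξ i
  have hext : ∀ m, (ext (fun j => (ξ j : ℤ)) m).natAbs ≤ 2 ^ L := by
    intro m
    unfold ext
    by_cases h : m < 4 * r
    · rw [dif_pos h]
      simpa using hξ ⟨m, h⟩
    · rw [dif_neg h]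
      simp
  have hL : L ≤ L * (2 ^ (q * C) + 1) := Nat.le_mul_of_pos_right L (Nat.succ_pos _)
  unfold pt
  by_cases h1 : i < 4 * r
  · rw [if_pos h1]
    refine (hext i).trans (Nat.pow_le_pow_right (by norm_num) ?_)
    omega
  rw [if_neg h1]
  by_cases h2 : i < 4 * r + r * C
  swap
  · rw [if_neg h2]
    simp
  rw [if_pos h2]
  have hc : (i - 4 * r) / r + 1 ≤ C := by
    have : (i - 4 * r) / r < C := by
      rw [Nat.div_lt_iff_lt_mul (by omega)]
      rw [mul_comm C r]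
      omega
    omega
  have hj : (i - 4 * r) % r ≤ r - 1 := by
    have := Nat.mod_lt (i - 4 * r) (show r > 0 by omega)
    omega
  have hexp : 2 ^ (q * ((i - 4 * r) / r + 1)) + 1 ≤ 2 ^ (q * C) + 1 := by
    have : 2 ^ (q * ((i - 4 * r) / r + 1)) ≤ 2 ^ (q * C) :=
      Nat.pow_le_pow_right (by norm_num) (Nat.mul_le_mul_left q hc)
    omega
  have hterm : ∀ m ∈ Finset.range (4 * r),
      (((m : ℤ) + 1) ^ ((i - 4 * r) % r) * (ext (fun j => (ξ j : ℤ)) m) ^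
        (2 ^ (q * ((i - 4 * r) / r + 1)) + 1)).natAbs ≤
        (4 * r) ^ (r - 1) * 2 ^ (L * (2 ^ (q * C) + 1)) := by
    intro m hm
    rw [Finset.mem_range] at hm
    rw [Int.natAbs_mul, Int.natAbs_pow, Int.natAbs_pow]
    have e1 : ((m : ℤ) + 1).natAbs = m + 1 := by omega
    rw [e1]
    apply Nat.mul_le_mul
    · calc (m + 1) ^ ((i - 4 * r) % r) ≤ (4 * r) ^ ((i - 4 * r) % r) :=
            Nat.pow_le_pow_left (by omega) _
        _ ≤ (4 * r) ^ (r - 1) := Nat.pow_le_pow_right (by omega) hj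
    · calc (ext (fun j => (ξ j : ℤ)) m).natAbs ^ (2 ^ (q * ((i - 4 * r) / r + 1)) + 1) ≤
            (2 ^ L) ^ (2 ^ (q * ((i - 4 * r) / r + 1)) + 1) := Nat.pow_le_pow_left (hext m) _
        _ ≤ (2 ^ L) ^ (2 ^ (q * C) + 1) := Nat.pow_le_pow_right (Nat.pos_of_ne_zero (by positivity)) hexp
        _ = 2 ^ (L * (2 ^ (q * C) + 1)) := (pow_mul 2 L _).symm
  have hsum := (Int.natAbs_sum_le (Finset.range (4 * r)) (fun m : ℕ =>
    ((m : ℤ) + 1) ^ ((i - 4 * r) % r) * (ext (fun j => (ξ j : ℤ)) m) ^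
        (2 ^ (q * ((i - 4 * r) / r + 1)) + 1))).trans (Finset.sum_le_card_nsmul _ _ _ hterm)
  rw [Finset.card_range, smul_eq_mul] at hsum
  refine hsum.trans ?_
  have h4 : 4 * r * (4 * r) ^ (r - 1) = (4 * r) ^ r := by
    rw [← pow_succ', Nat.sub_add_cancel hr]
  have h5 : (4 * r) ^ r ≤ 2 ^ (4 * r ^ 2) := by
    calc (4 * r) ^ r ≤ (2 ^ (4 * r)) ^ r := Nat.pow_le_pow_left (Nat.lt_two_pow_self).le _
      _ = 2 ^ (4 * r ^ 2) := by
        rw [← pow_mul]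
        congr 1
        ring
  calc 4 * r * ((4 * r) ^ (r - 1) * 2 ^ (L * (2 ^ (q * C) + 1))) =
        (4 * r) ^ r * 2 ^ (L * (2 ^ (q * C) + 1)) := by rw [← mul_assoc, h4]
    _ ≤ 2 ^ (4 * r ^ 2) * 2 ^ (L * (2 ^ (q * C) + 1)) := Nat.mul_le_mul_right _ h5
    _ = 2 ^ (4 * r ^ 2 + L * (2 ^ (q * C) + 1)) := (pow_add _ _ _).symm

end Pool.Agent.BSI.H65
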